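import Pool.Agent.J4H7.AF.Stm

set_option autoImplicit false

/-! # helper31: (BLK), the unweighted exponential sums over one block -/

namespace Pool.Agent.J4H31.AF

open Finset MeasureTheory Filter Topology
open Pool.Agent.J4H7.WE (ww ww_nonneg ww_le ww_ee ee_add ee_zero ee_norm' cf cf_bound sum_dec fourier_ww)
open Pool.Agent.J4H7.WS (Fn ESall SG SG_triv)
open Pool.Agent.Helper153.Vdc (ee)
open Pool.Agent.J4H7.AF

/-- the twisted weighted sum -/
noncomputable def GM (f : ℝ → ℝ) (Y M : ℕ) (β m : ℝ) : ℂ :=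
  ∑ n ∈ range M, ((ww (f ((Y : ℝ) + n)) : ℝ) : ℂ) * ee (m * f ((Y : ℝ) + n)) * ee (β * (⌊f ((Y : ℝ) + n)⌋₊ : ℝ))

lemma GM_hasSum {f : ℝ → ℝ} (hf : ∀ z : ℝ, 0 ≤ z → 0 ≤ f z) (Y M : ℕ) {β : ℝ} (hβ : |β| ≤ 1 / 2) (m : ℝ) :
    HasSum (fun h : ℤ => cf β h * SG f Y M (h + β + m)) (GM f Y M β m) := by
  have h1 : ∀ n ∈ range M, HasSum (fun h : ℤ => cf β h * ee ((h + β + m) * f ((Y : ℝ) + n)))
      (((ww (f ((Y : ℝ) + n)) : ℝ) : ℂ) * ee (m * f ((Y : ℝ) + n)) * ee (β * (⌊f ((Y : ℝ) + n)⌋₊ : ℝ))) := by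
    intro n _
    set t : ℝ := f ((Y : ℝ) + n) with ht
    have ht0 : 0 ≤ t := hf _ (by positivity)
    have h2 := (fourier_ww hβ t).mul_right (ee ((β + m) * t))
    have e1 : (ww t : ℂ) * ee (-(β * Int.fract t)) * ee ((β + m) * t) = (ww t : ℂ) * ee (m * t) * ee (β * (⌊t⌋₊ : ℝ)) := by
      rw [mul_assoc, mul_assoc, ← ee_add, ← ee_add]
      congr 2
      have : (⌊t⌋₊ : ℝ) = (⌊t⌋ : ℝ) := natCast_floor_eq_intCast_floor ht0
      rw [this, Int.fract]
      ring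
    rw [e1] at h2
    refine h2.congr_fun ?_
    intro h
    rw [mul_assoc (cf β h), ← ee_add]
    congr 2
    ring
  have h3 := hasSum_sum h1
  have e2 : (fun h : ℤ => ∑ n ∈ range M, cf β h * ee ((h + β + m) * f ((Y : ℝ) + n))) =
      fun h : ℤ => cf β h * SG f Y M (h + β + m) := by
    funext h
    unfold SG
    rw [Finset.mul_sum]
  rw [e2] at h3
  exact h3

theorem GM_bound {k : ℕ} (hk : 2 ≤ k) {f : ℝ → ℝ} (hf : ∀ z : ℝ, 0 ≤ z → 0 ≤ f z) {η κ σ C X0 : ℝ} (hη1 : η ≤ 1 / 8)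
    (hκ1 : κ ≤ 1) (hσ1 : σ ≤ 1) (hC : 1 ≤ C)
    (H : ∀ X : ℝ, X0 ≤ X → ∀ β : ℝ, X ^ (2 * η) ≤ |β| * X ^ (k : ℝ) → |β| ≤ X ^ κ → ∀ Y M : ℕ, 4 * X ≤ Y →
      (Y : ℝ) + M ≤ 64 * X + 1 → ‖SG f Y M β‖ ≤ C * X ^ (1 - σ)) {X : ℝ} (hXX0 : X0 ≤ X) (hX4 : 4 ≤ X) (hXκ : 2 ≤ X ^ κ)
    {β : ℝ} (hβ : |β| ≤ 1 / 2) (hβ2 : X ^ (2 * η) ≤ |β| * X ^ (k : ℝ)) {Y M : ℕ} (hY : 4 * X ≤ Y)
    (hM : (Y : ℝ) + M ≤ 64 * X + 1) (m : ℤ) (hm : |(m : ℝ)| ≤ X ^ κ / 4) :
    ‖GM f Y M β m‖ ≤ (∑' n : ℤ, 8 / (1 + |(n : ℝ)|) ^ 2) * ((C + 130) * X ^ (1 - min σ κ)) := by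
  have hk' : (2 : ℝ) ≤ k := by exact_mod_cast hk
  have hS := sum_dec
  have hXp : 0 < X := by linarith
  set P : ℝ := X ^ (1 - min σ κ) with hP
  have hP1 : 1 ≤ P := Real.one_le_rpow (by linarith) (by linarith [min_le_left σ κ])
  have hPσ : X ^ (1 - σ) ≤ P := Real.rpow_le_rpow_of_exponent_le (by linarith) (by linarith [min_le_left σ κ])
  have hPκ : X ^ (1 - κ) ≤ P := Real.rpow_le_rpow_of_exponent_le (by linarith) (by linarith [min_le_right σ κ])
  have hM65 : (M : ℝ) ≤ 65 * X := by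
    have : (0 : ℝ) ≤ Y := by positivity
    linarith
  have hterm : ∀ h : ℤ, ‖cf β h * SG f Y M (h + β + m)‖ ≤ 8 / (1 + |(h : ℝ)|) ^ 2 * ((C + 130) * P) := by
    intro h
    have hh0 := abs_nonneg (h : ℝ)
    have hSE : ‖SG f Y M (h + β + m)‖ ≤ (1 + |(h : ℝ)|) * ((C + 130) * P) := by
      rcases le_or_gt |(h : ℝ) + β + m| (X ^ κ) with hle | hgt
      · have g1 : ‖SG f Y M (h + β + m)‖ ≤ C * X ^ (1 - σ) := by
          refine H X hXX0 (h + β + m) ?_ hle Y M hY hM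
          by_cases hh : h + m = 0
          · have e : (h : ℝ) + β + m = β := by
              have : (h : ℝ) + m = 0 := by exact_mod_cast hh
              linarith
            rw [e]
            exact hβ2
          · have h1 : (1 : ℝ) ≤ |((h + m : ℤ) : ℝ)| := by
              have : (1 : ℤ) ≤ |h + m| := Int.one_le_abs hh
              exact_mod_cast this
            have h2 : 1 / 2 ≤ |(h : ℝ) + β + m| := by
              have := abs_sub_abs_le_abs_sub ((h + m : ℤ) : ℝ) (-β)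
              rw [abs_neg, sub_neg_eq_add] at this
              have e : ((h + m : ℤ) : ℝ) + β = (h : ℝ) + β + m := by push_cast; ring
              rw [e] at this
              linarith
            have h3 : X ^ (2 * η) ≤ X ^ (1 / 2 : ℝ) := Real.rpow_le_rpow_of_exponent_le (by linarith) (by linarith)
            have h4 : X ^ (1 / 2 : ℝ) * X ^ (1 / 2 : ℝ) ≤ X ^ (k : ℝ) := by
              rw [← Real.rpow_add hXp]
              exact Real.rpow_le_rpow_of_exponent_le (by linarith) (by linarith)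
            have h5 : (2 : ℝ) ≤ X ^ (1 / 2 : ℝ) := by
              have : (2 : ℝ) = (4 : ℝ) ^ (1 / 2 : ℝ) := by
                rw [show (4 : ℝ) = 2 ^ (2 : ℝ) by norm_num, ← Real.rpow_mul (by norm_num)]
                norm_num
              exact this.le.trans (Real.rpow_le_rpow (by norm_num) hX4 (by norm_num))
            have h6 : 0 < X ^ (1 / 2 : ℝ) := by linarith
            calc X ^ (2 * η) ≤ X ^ (1 / 2 : ℝ) := h3
              _ ≤ 1 / 2 * (X ^ (1 / 2 : ℝ) * X ^ (1 / 2 : ℝ)) := by nlinarith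
              _ ≤ 1 / 2 * X ^ (k : ℝ) := by linarith
              _ ≤ |(h : ℝ) + β + m| * X ^ (k : ℝ) := mul_le_mul_of_nonneg_right h2 (Real.rpow_nonneg hXp.le _)
        calc ‖SG f Y M (h + β + m)‖ ≤ C * X ^ (1 - σ) := g1
          _ ≤ C * P := mul_le_mul_of_nonneg_left hPσ (by linarith)
          _ ≤ 1 * ((C + 130) * P) := by nlinarith
          _ ≤ _ := by
            apply mul_le_mul_of_nonneg_right _ (by nlinarith)
            linarith
      · have h1 : X ^ κ / 2 ≤ |(h : ℝ)| := by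
          have h7 := abs_add_le ((h : ℝ) + β) (m : ℝ)
          have h8 := abs_add_le (h : ℝ) β
          linarith
        have hXe : X = X ^ κ * X ^ (1 - κ) := by
          rw [← Real.rpow_add hXp]
          rw [show κ + (1 - κ) = 1 by ring, Real.rpow_one]
        have hXκ0 : 0 < X ^ (1 - κ) := Real.rpow_pos_of_pos hXp _
        calc ‖SG f Y M (h + β + m)‖ ≤ M := SG_triv _ _ _ _
          _ ≤ 65 * X := hM65
          _ = 65 * (X ^ κ * X ^ (1 - κ)) := by rw [← hXe]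
          _ ≤ 65 * ((2 * |(h : ℝ)|) * P) := by
            apply mul_le_mul_of_nonneg_left _ (by norm_num)
            apply mul_le_mul (by linarith) hPκ hXκ0.le (by positivity)
          _ ≤ _ := by
            have a1 : 0 ≤ C * (|(h : ℝ)| * P) := mul_nonneg (by linarith) (mul_nonneg hh0 (by linarith))
            have a2 : 0 ≤ (C + 130) * P := mul_nonneg (by linarith) (by linarith)
            have a3 : (1 + |(h : ℝ)|) * ((C + 130) * P) = (C + 130) * P + C * (|(h : ℝ)| * P) + 65 * (2 * |(h : ℝ)| * P) := by ring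
            rw [a3]
            linarith
    rw [norm_mul]
    calc ‖cf β h‖ * ‖SG f Y M (h + β + m)‖ ≤ 8 / (1 + |(h : ℝ)|) ^ 3 * ((1 + |(h : ℝ)|) * ((C + 130) * P)) :=
          mul_le_mul (cf_bound hβ h) hSE (norm_nonneg _) (by positivity)
      _ = _ := by
        field_simp
  have hG := GM_hasSum hf Y M hβ m
  have hsum : Summable fun h : ℤ => 8 / (1 + |(h : ℝ)|) ^ 2 * ((C + 130) * P) := hS.mul_right _
  calc ‖GM f Y M β m‖ = ‖∑' h : ℤ, cf β h * SG f Y M (h + β + m)‖ := by rw [hG.tsum_eq]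
    _ ≤ ∑' h : ℤ, 8 / (1 + |(h : ℝ)|) ^ 2 * ((C + 130) * P) := tsum_of_norm_bounded hsum.hasSum hterm
    _ = _ := by rw [tsum_mul_right]

lemma ee_pow (x : ℝ) (n : ℕ) : ee x ^ n = ee (n * x) := by
  induction n with
  | zero => simp [ee_zero]
  | succ n ih =>
    rw [pow_succ, ih, ← ee_add]
    congr 1
    push_cast
    ring

lemma cos_pow (t : ℝ) (j : ℕ) : (((1 - ww t) ^ j : ℝ) : ℂ) =
    ∑ i ∈ range (2 * j + 1), (((((2 * j).choose i : ℕ) : ℝ) / 4 ^ j : ℝ) : ℂ) * ee (((i : ℝ) - j) * t) := by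
  have h1 : (((1 - ww t : ℝ)) : ℂ) = (ee (t / 2) + ee (-(t / 2))) ^ 2 / 4 := by
    push_cast
    rw [ww_ee]
    have e1 : ee t = ee (t / 2) * ee (t / 2) := by rw [← ee_add]; congr 1; ring
    have e2 : ee (-t) = ee (-(t / 2)) * ee (-(t / 2)) := by rw [← ee_add]; congr 1; ring
    have e3 : ee (t / 2) * ee (-(t / 2)) = 1 := by rw [← ee_add, ← ee_zero]; congr 1; ring
    rw [e1, e2]
    have : (ee (t / 2) + ee (-(t / 2))) ^ 2 = ee (t / 2) * ee (t / 2) + 2 * (ee (t / 2) * ee (-(t / 2))) +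
      ee (-(t / 2)) * ee (-(t / 2)) := by ring
    rw [this, e3]
    ring
  rw [Complex.ofReal_pow, h1, div_pow, ← pow_mul, add_pow, Finset.sum_div]
  refine Finset.sum_congr rfl fun i hi => ?_
  have hi' : i ≤ 2 * j := Nat.lt_succ_iff.1 (mem_range.1 hi)
  rw [ee_pow, ee_pow, ← ee_add]
  have e : (i : ℝ) * (t / 2) + ((2 * j - i : ℕ) : ℝ) * -(t / 2) = ((i : ℝ) - j) * t := by
    rw [Nat.cast_sub hi']
    push_cast
    ring
  rw [e]
  push_cast
  ring

lemma coef_sum (j : ℕ) : ∑ i ∈ range (2 * j + 1), ((((2 * j).choose i : ℕ) : ℝ) / 4 ^ j) = 1 := by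
  rw [← Finset.sum_div, ← Nat.cast_sum, Nat.sum_range_choose]
  push_cast
  rw [pow_mul]
  norm_num

lemma cb (n : ℕ) : (Nat.centralBinom n : ℝ) ^ 2 * (2 * n + 1) ≤ 16 ^ n := by
  induction n with
  | zero => simp
  | succ n ih =>
    have h := Nat.succ_mul_centralBinom_succ n
    have h' : ((n : ℝ) + 1) * (Nat.centralBinom (n + 1) : ℝ) = 2 * (2 * n + 1) * (Nat.centralBinom n : ℝ) := by
      exact_mod_cast h
    have hn : (0 : ℝ) ≤ n := Nat.cast_nonneg n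
    have h2 : ((n : ℝ) + 1) ^ 2 * ((Nat.centralBinom (n + 1) : ℝ) ^ 2 * (2 * ((n + 1 : ℕ) : ℝ) + 1)) ≤
        ((n : ℝ) + 1) ^ 2 * 16 ^ (n + 1) := by
      calc ((n : ℝ) + 1) ^ 2 * ((Nat.centralBinom (n + 1) : ℝ) ^ 2 * (2 * ((n + 1 : ℕ) : ℝ) + 1)) =
          (((n : ℝ) + 1) * (Nat.centralBinom (n + 1) : ℝ)) ^ 2 * (2 * n + 3) := by push_cast; ring
        _ = 4 * (2 * n + 1) * (2 * n + 3) * ((Nat.centralBinom n : ℝ) ^ 2 * (2 * n + 1)) := by rw [h']; ring
        _ ≤ 4 * (2 * n + 1) * (2 * n + 3) * 16 ^ n := by gcongr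
        _ ≤ (16 * ((n : ℝ) + 1) ^ 2) * 16 ^ n := by
            apply mul_le_mul_of_nonneg_right _ (by positivity)
            nlinarith
        _ = _ := by ring
    exact le_of_mul_le_mul_left h2 (by positivity)

lemma coef_mid (J : ℕ) : (((2 * J).choose J : ℕ) : ℝ) / 4 ^ J ≤ 1 / Real.sqrt (2 * J + 1) := by
  have h := cb J
  have hc : (Nat.centralBinom J : ℝ) = (((2 * J).choose J : ℕ) : ℝ) := by rw [Nat.centralBinom_eq_two_mul_choose]
  rw [hc] at h
  have hs : 0 < Real.sqrt (2 * J + 1) := Real.sqrt_pos.2 (by positivity)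
  rw [div_le_div_iff₀ (by positivity) hs, one_mul]
  apply le_of_sq_le_sq _ (by positivity)
  rw [mul_pow, Real.sq_sqrt (by positivity), ← pow_mul, mul_comm J 2, pow_mul]
  norm_num
  exact h

theorem t_BLK : S_BLK := by
  intro k hk f hF hES η hη hη1
  have hk' : (2 : ℝ) ≤ k := by exact_mod_cast hk
  have hf := hF.nn
  obtain ⟨κ, hκ, hκ1, σ, hσ, hσ1, C, hC, X0, hX0, H⟩ := hES η hη hη1
  obtain ⟨S, hS⟩ : ∃ S : ℝ, S = ∑' n : ℤ, 8 / (1 + |(n : ℝ)|) ^ 2 := ⟨_, rfl⟩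
  have hS0 : 0 ≤ S := by rw [hS]; exact tsum_nonneg fun n => by positivity
  obtain ⟨s, hs⟩ : ∃ s, s = min σ κ := ⟨_, rfl⟩
  have hs0 : 0 < s := by rw [hs]; exact lt_min hσ hκ
  have hsσ : s ≤ σ := by rw [hs]; exact min_le_left _ _
  have hsκ : s ≤ κ := by rw [hs]; exact min_le_right _ _
  obtain ⟨X1, hX1⟩ := eventually_atTop.1 ((tendsto_rpow_atTop (half_pos hκ)).eventually_ge_atTop (4 : ℝ))
  obtain ⟨X2, hX2⟩ := eventually_atTop.1 ((tendsto_rpow_atTop (half_pos hs0)).eventually_ge_atTop (2 : ℝ))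
  refine ⟨s / 4, by positivity, by linarith, S * (C + 130) + 65 + C, ?_, max (max X0 X1) (max X2 4), ?_, ?_⟩
  · have : 0 ≤ S * (C + 130) := mul_nonneg hS0 (by linarith)
    linarith
  · exact (le_max_right _ _).trans (le_max_right _ _)
  intro X hX β hβ hβ2 Y M hY hM
  have hX4 : 4 ≤ X := ((le_max_right _ _).trans (le_max_right _ _)).trans hX
  have hXX0 : X0 ≤ X := ((le_max_left _ _).trans (le_max_left _ _)).trans hX
  have hXκ2 : 4 ≤ X ^ (κ / 2) := hX1 X (((le_max_right _ _).trans (le_max_left _ _)).trans hX)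
  have hXs2 : 2 ≤ X ^ (s / 2) := hX2 X (((le_max_left _ _).trans (le_max_right _ _)).trans hX)
  have hXp : 0 < X := by linarith
  have hXκe : X ^ κ = X ^ (κ / 2) * X ^ (κ / 2) := by
    rw [← Real.rpow_add hXp]
    ring_nf
  have hXκ : 2 ≤ X ^ κ := by rw [hXκe]; nlinarith
  have hsκ2 : X ^ (s / 2) ≤ X ^ (κ / 2) := Real.rpow_le_rpow_of_exponent_le (by linarith) (by linarith)
  have hJκ : X ^ (s / 2) ≤ X ^ κ / 4 := by rw [hXκe]; nlinarith
  have hM65 : (M : ℝ) ≤ 65 * X := by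
    have : (0 : ℝ) ≤ Y := by positivity
    linarith
  obtain ⟨J, hJ⟩ : ∃ J, J = ⌊X ^ (s / 2)⌋₊ := ⟨_, rfl⟩
  have hJ1 : (J : ℝ) ≤ X ^ (s / 2) := by rw [hJ]; exact Nat.floor_le (by positivity)
  have hJ2 : X ^ (s / 2) < J + 1 := by rw [hJ]; exact Nat.lt_floor_add_one _
  -- the sum of one weighted piece
  have hpiece : ∀ j < J, ‖∑ n ∈ range M, ((ww (f ((Y : ℝ) + n)) : ℝ) : ℂ) * (((1 - ww (f ((Y : ℝ) + n))) ^ j : ℝ) : ℂ) *
      ee (β * (⌊f ((Y : ℝ) + n)⌋₊ : ℝ))‖ ≤ S * ((C + 130) * X ^ (1 - s)) := by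
    intro j hj
    have hjJ : (j : ℝ) ≤ J := by exact_mod_cast hj.le
    have e : ∑ n ∈ range M, ((ww (f ((Y : ℝ) + n)) : ℝ) : ℂ) * (((1 - ww (f ((Y : ℝ) + n))) ^ j : ℝ) : ℂ) *
        ee (β * (⌊f ((Y : ℝ) + n)⌋₊ : ℝ)) =
        ∑ i ∈ range (2 * j + 1), (((((2 * j).choose i : ℕ) : ℝ) / 4 ^ j : ℝ) : ℂ) * GM f Y M β (((i : ℤ) - (j : ℤ) : ℤ) : ℝ) := by
      simp_rw [cos_pow]
      unfold GM
      simp_rw [Finset.mul_sum, Finset.sum_mul]
      rw [Finset.sum_comm]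
      refine Finset.sum_congr rfl fun i _ => Finset.sum_congr rfl fun n _ => ?_
      push_cast
      ring
    rw [e]
    refine (norm_sum_le _ _).trans ?_
    calc ∑ i ∈ range (2 * j + 1), ‖(((((2 * j).choose i : ℕ) : ℝ) / 4 ^ j : ℝ) : ℂ) * GM f Y M β (((i : ℤ) - (j : ℤ) : ℤ) : ℝ)‖ ≤
        ∑ i ∈ range (2 * j + 1), ((((2 * j).choose i : ℕ) : ℝ) / 4 ^ j) * (S * ((C + 130) * X ^ (1 - s))) := by
          refine Finset.sum_le_sum fun i hi => ?_
          rw [norm_mul, Complex.norm_real, Real.norm_of_nonneg (by positivity)]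
          apply mul_le_mul_of_nonneg_left _ (by positivity)
          rw [hS, hs]
          refine GM_bound hk hf hη1 hκ1 hσ1 hC H hXX0 hX4 hXκ hβ hβ2 hY hM _ ?_
          have hi' : (i : ℝ) ≤ 2 * j := by exact_mod_cast Nat.lt_succ_iff.1 (mem_range.1 hi)
          have hi0 : (0 : ℝ) ≤ i := Nat.cast_nonneg i
          push_cast
          rw [abs_le]
          constructor <;> linarith
      _ = _ := by rw [← Finset.sum_mul, coef_sum, one_mul]
  -- the rest
  have hrest : ∑ n ∈ range M, (1 - ww (f ((Y : ℝ) + n))) ^ J ≤ M / Real.sqrt (2 * J + 1) + C * X ^ (1 - σ) := by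
    have e : ((∑ n ∈ range M, (1 - ww (f ((Y : ℝ) + n))) ^ J : ℝ) : ℂ) =
        ∑ i ∈ range (2 * J + 1), (((((2 * J).choose i : ℕ) : ℝ) / 4 ^ J : ℝ) : ℂ) * SG f Y M ((i : ℝ) - J) := by
      rw [Complex.ofReal_sum]
      simp_rw [cos_pow]
      unfold SG
      simp_rw [Finset.mul_sum]
      rw [Finset.sum_comm]
    have h1 : ∑ n ∈ range M, (1 - ww (f ((Y : ℝ) + n))) ^ J ≤
        ‖((∑ n ∈ range M, (1 - ww (f ((Y : ℝ) + n))) ^ J : ℝ) : ℂ)‖ := by
      rw [Complex.norm_real]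
      exact le_abs_self _
    refine h1.trans ?_
    rw [e]
    refine (norm_sum_le _ _).trans ?_
    have hC0 : 0 ≤ C * X ^ (1 - σ) := by positivity
    calc ∑ i ∈ range (2 * J + 1), ‖(((((2 * J).choose i : ℕ) : ℝ) / 4 ^ J : ℝ) : ℂ) * SG f Y M ((i : ℝ) - J)‖ ≤
        ∑ i ∈ range (2 * J + 1), (((((2 * J).choose i : ℕ) : ℝ) / 4 ^ J) * (C * X ^ (1 - σ)) +
          if i = J then (((2 * J).choose J : ℕ) : ℝ) / 4 ^ J * M else 0) := by
          refine Finset.sum_le_sum fun i hi => ?_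
          rw [norm_mul, Complex.norm_real, Real.norm_of_nonneg (by positivity)]
          by_cases hiJ : i = J
          · rw [if_pos hiJ, hiJ]
            have h2 : ‖SG f Y M ((J : ℝ) - J)‖ ≤ M := SG_triv _ _ _ _
            have h3 : 0 ≤ (((2 * J).choose J : ℕ) : ℝ) / 4 ^ J := by positivity
            have h4 := mul_le_mul_of_nonneg_left h2 h3
            have h5 := mul_nonneg h3 hC0
            linarith
          · rw [if_neg hiJ, add_zero]
            apply mul_le_mul_of_nonneg_left _ (by positivity)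
            have hi' : (i : ℝ) ≤ 2 * J := by exact_mod_cast Nat.lt_succ_iff.1 (mem_range.1 hi)
            have hi0 : (0 : ℝ) ≤ i := Nat.cast_nonneg i
            have habs : |(i : ℝ) - J| ≤ J := by
              rw [abs_le]
              constructor <;> linarith
            have hone : 1 ≤ |(i : ℝ) - J| := by
              have h6 : ((i : ℤ) - (J : ℤ)) ≠ 0 := by omega
              have h7 : (1 : ℤ) ≤ |(i : ℤ) - (J : ℤ)| := Int.one_le_abs h6
              exact_mod_cast h7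
            refine H X hXX0 _ ?_ ?_ Y M hY hM
            · calc X ^ (2 * η) ≤ X ^ (k : ℝ) := Real.rpow_le_rpow_of_exponent_le (by linarith) (by linarith)
                _ = 1 * X ^ (k : ℝ) := (one_mul _).symm
                _ ≤ _ := mul_le_mul_of_nonneg_right hone (by positivity)
            · have : 0 ≤ X ^ κ := by positivity
              linarith
      _ = C * X ^ (1 - σ) + (((2 * J).choose J : ℕ) : ℝ) / 4 ^ J * M := by
          rw [Finset.sum_add_distrib, ← Finset.sum_mul, coef_sum, one_mul, Finset.sum_ite_eq' (range (2 * J + 1)) J,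
            if_pos (mem_range.2 (by omega))]
      _ ≤ _ := by
          have h2 := mul_le_mul_of_nonneg_right (coef_mid J) (Nat.cast_nonneg M : (0 : ℝ) ≤ M)
          have h3 : 1 / Real.sqrt (2 * J + 1) * (M : ℝ) = M / Real.sqrt (2 * J + 1) := by ring
          rw [h3] at h2
          linarith
  -- the decomposition
  have hdec : ∑ n ∈ range M, ee (β * (⌊f ((Y : ℝ) + n)⌋₊ : ℝ)) =
      (∑ j ∈ range J, ∑ n ∈ range M, ((ww (f ((Y : ℝ) + n)) : ℝ) : ℂ) * (((1 - ww (f ((Y : ℝ) + n))) ^ j : ℝ) : ℂ) *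
        ee (β * (⌊f ((Y : ℝ) + n)⌋₊ : ℝ))) +
      ∑ n ∈ range M, (((1 - ww (f ((Y : ℝ) + n))) ^ J : ℝ) : ℂ) * ee (β * (⌊f ((Y : ℝ) + n)⌋₊ : ℝ)) := by
    rw [Finset.sum_comm, ← Finset.sum_add_distrib]
    refine Finset.sum_congr rfl fun n _ => ?_
    have h1 := mul_neg_geom_sum (1 - ww (f ((Y : ℝ) + n))) J
    have h2 : ww (f ((Y : ℝ) + n)) * ∑ j ∈ range J, (1 - ww (f ((Y : ℝ) + n))) ^ j + (1 - ww (f ((Y : ℝ) + n))) ^ J = 1 := by
      have e : 1 - (1 - ww (f ((Y : ℝ) + n))) = ww (f ((Y : ℝ) + n)) := by ring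
      rw [e] at h1
      linarith
    have h3 : ((ww (f ((Y : ℝ) + n)) : ℝ) : ℂ) * ∑ j ∈ range J, (((1 - ww (f ((Y : ℝ) + n))) ^ j : ℝ) : ℂ) +
        (((1 - ww (f ((Y : ℝ) + n))) ^ J : ℝ) : ℂ) = 1 := by
      rw [← Complex.ofReal_sum]
      exact_mod_cast h2
    rw [← Finset.sum_mul, ← Finset.mul_sum, ← add_mul, h3, one_mul]
  rw [hdec]
  refine (norm_add_le _ _).trans ?_
  have hA : ‖∑ j ∈ range J, ∑ n ∈ range M, ((ww (f ((Y : ℝ) + n)) : ℝ) : ℂ) * (((1 - ww (f ((Y : ℝ) + n))) ^ j : ℝ) : ℂ) *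
        ee (β * (⌊f ((Y : ℝ) + n)⌋₊ : ℝ))‖ ≤ S * (C + 130) * X ^ (1 - s / 4) := by
    refine (norm_sum_le _ _).trans ?_
    calc _ ≤ ∑ _j ∈ range J, S * ((C + 130) * X ^ (1 - s)) := Finset.sum_le_sum fun j hj => hpiece j (mem_range.1 hj)
      _ = J * (S * ((C + 130) * X ^ (1 - s))) := by simp
      _ ≤ X ^ (s / 2) * (S * ((C + 130) * X ^ (1 - s))) := by
          apply mul_le_mul_of_nonneg_right hJ1
          positivity
      _ = S * (C + 130) * (X ^ (s / 2) * X ^ (1 - s)) := by ring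
      _ ≤ S * (C + 130) * X ^ (1 - s / 4) := by
          apply mul_le_mul_of_nonneg_left _ (by positivity)
          rw [← Real.rpow_add hXp]
          exact Real.rpow_le_rpow_of_exponent_le (by linarith) (by linarith)
  have hB : ‖∑ n ∈ range M, (((1 - ww (f ((Y : ℝ) + n))) ^ J : ℝ) : ℂ) * ee (β * (⌊f ((Y : ℝ) + n)⌋₊ : ℝ))‖ ≤
      (65 + C) * X ^ (1 - s / 4) := by
    refine (norm_sum_le _ _).trans ?_
    have e : ∀ n ∈ range M, ‖(((1 - ww (f ((Y : ℝ) + n))) ^ J : ℝ) : ℂ) * ee (β * (⌊f ((Y : ℝ) + n)⌋₊ : ℝ))‖ =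
        (1 - ww (f ((Y : ℝ) + n))) ^ J := by
      intro n _
      have := ww_le (f ((Y : ℝ) + n))
      rw [norm_mul, ee_norm', mul_one, Complex.norm_real, Real.norm_of_nonneg (pow_nonneg (by linarith) _)]
    rw [Finset.sum_congr rfl e]
    refine hrest.trans ?_
    have h1 : X ^ (s / 4) ≤ Real.sqrt (2 * J + 1) := by
      apply Real.le_sqrt_of_sq_le
      rw [← Real.rpow_natCast, ← Real.rpow_mul hXp.le]
      have e2 : s / 4 * ((2 : ℕ) : ℝ) = s / 2 := by push_cast; ring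
      rw [e2]
      linarith
    have hXs4 : 0 < X ^ (s / 4) := by positivity
    have h2 : (M : ℝ) / Real.sqrt (2 * J + 1) ≤ 65 * X ^ (1 - s / 4) := by
      calc (M : ℝ) / Real.sqrt (2 * J + 1) ≤ 65 * X / X ^ (s / 4) := by gcongr
        _ = 65 * X ^ (1 - s / 4) := by
            rw [Real.rpow_sub hXp, Real.rpow_one]
            ring
    have h3 : C * X ^ (1 - σ) ≤ C * X ^ (1 - s / 4) := by
      apply mul_le_mul_of_nonneg_left _ (by linarith)
      exact Real.rpow_le_rpow_of_exponent_le (by linarith) (by linarith)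
    linarith
  calc _ ≤ S * (C + 130) * X ^ (1 - s / 4) + (65 + C) * X ^ (1 - s / 4) := add_le_add hA hB
    _ = _ := by ring

end Pool.Agent.J4H31.AF
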