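import Pool.Agent.J4H7.AF.Stm

set_option autoImplicit false

/-! # helper31: (MV), the full mean value -/

namespace Pool.Agent.J4H31.AF.Mv

open Finset MeasureTheory Filter Topology
open Pool.Agent.J4H7.WE (JJ)
open Pool.Agent.J4H7.WS (fr fsR fr_err)
open Pool.Agent.J4H7.WT (DD EX PT)
open Pool.Agent.J4H7.AF

open scoped Classical in
/-- coincidences are near-coincidences -/
lemma JJ_EX {k : ℕ} {L : ℝ} {α : Fin k → ℝ} (hα : ∀ i, α i ∈ Set.Icc 0 L) (A : Finset (Fin k → ℕ)) :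
    JJ A (fsR (PT k α)) ≤ ((A ×ˢ A).filter fun p => α ∈ EX k L k p.1 p.2).card := by
  have hnn : ∀ z : ℝ, 0 ≤ z → 0 ≤ PT k α z := by
    intro z hz
    unfold PT
    have : 0 ≤ ∑ i : Fin k, α i * z ^ (i : ℕ) := Finset.sum_nonneg fun i _ => mul_nonneg (hα i).1 (by positivity)
    positivity
  unfold JJ
  apply Finset.card_le_card
  intro p hp
  rw [Finset.mem_filter] at hp ⊢
  refine ⟨hp.1, hα, ?_⟩
  have h3 := hp.2
  have e0 : DD k p.1 p.2 + ∑ i : Fin k, α i * DD (i : ℕ) p.1 p.2 = ∑ j, (PT k α (p.1 j) - PT k α (p.2 j)) := by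
    unfold DD PT
    simp_rw [Finset.mul_sum]
    rw [Finset.sum_comm, ← Finset.sum_add_distrib]
    refine Finset.sum_congr rfl fun j _ => ?_
    simp_rw [mul_sub]
    rw [Finset.sum_sub_distrib]
    ring
  have e1 : ∑ j, (PT k α ((p.1 j : ℕ) : ℝ) - PT k α ((p.2 j : ℕ) : ℝ)) =
      ∑ j, ((PT k α ((p.1 j : ℕ) : ℝ) - fr (PT k α) (p.1 j)) - (PT k α ((p.2 j : ℕ) : ℝ) - fr (PT k α) (p.2 j))) := by
    have h4 : ((fsR (PT k α) p.1 : ℕ) : ℝ) = fsR (PT k α) p.2 := by rw [h3]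
    unfold fsR at h4
    push_cast at h4
    have h5 : ∀ j : Fin k, PT k α ((p.1 j : ℕ) : ℝ) - PT k α ((p.2 j : ℕ) : ℝ) =
        ((PT k α ((p.1 j : ℕ) : ℝ) - fr (PT k α) (p.1 j)) - (PT k α ((p.2 j : ℕ) : ℝ) - fr (PT k α) (p.2 j))) +
          ((fr (PT k α) (p.1 j) : ℝ) - fr (PT k α) (p.2 j)) := by
      intro j
      ring
    rw [Finset.sum_congr rfl fun j _ => h5 j]
    rw [Finset.sum_add_distrib, Finset.sum_sub_distrib (f := fun j => (fr (PT k α) (p.1 j) : ℝ)), h4, sub_self, add_zero]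
  rw [e0, e1]
  refine (Finset.abs_sum_le_sum_abs _ _).trans ?_
  calc _ ≤ ∑ _j : Fin k, (1 : ℝ) := by
        refine Finset.sum_le_sum fun j _ => ?_
        obtain ⟨a1, a2⟩ := fr_err hnn (p.1 j)
        obtain ⟨b1, b2⟩ := fr_err hnn (p.2 j)
        rw [abs_le]
        constructor <;> linarith
    _ = k := by simp

lemma JJ_mono {k : ℕ} {A B : Finset (Fin k → ℕ)} (h : A ⊆ B) (f : (Fin k → ℕ) → ℕ) : JJ A f ≤ JJ B f := by
  unfold JJ
  apply Finset.card_le_card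
  intro p hp
  rw [Finset.mem_filter, Finset.mem_product] at hp ⊢
  exact ⟨⟨h hp.1.1, h hp.1.2⟩, hp.2⟩

lemma TOT_ge {k K m : ℕ} {L : ℝ} {α : Fin k → ℝ} (hα : ∀ i, α i ∈ Set.Icc 0 L) :
    ∑ l ∈ range m, ∑ P ∈ range (K ^ l), ∑ c ∈ Sep k K, (JJ (BX K P (K ^ (m - l - 1)) c) (fsR (PT k α)) : ℝ) ≤
      (TOT k K m L k α : ℝ) := by
  classical
  unfold TOT
  push_cast
  refine Finset.sum_le_sum fun l _ => Finset.sum_le_sum fun P _ => Finset.sum_le_sum fun c _ => ?_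
  have := JJ_EX hα (BX K P (K ^ (m - l - 1)) c)
  exact_mod_cast this

theorem t_MV : S_BC → S_IT → S_MV := by
  intro hBC hIT k hk
  have hBC' : ∀ (k K : ℕ) (L0 τ : ℝ), 1 ≤ k → 2 ≤ K → 1 ≤ L0 → 0 ≤ τ → ∀ᵐ α : Fin k → ℝ, ∀ ε : ℝ, 0 < ε →
      ∀ᶠ m : ℕ in atTop, (TOT k K m L0 τ α : ℝ) ≤ ((K : ℝ) ^ m) ^ ((k : ℝ) + ε) := by
    intro k K L0 τ hk h1 h2 h3
    obtain ⟨t, rfl⟩ : ∃ t, k = t + 1 := ⟨k - 1, by omega⟩
    exact hBC t K L0 τ h1 h2 h3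
  have hae : ∀ᵐ α : Fin k → ℝ, ∀ K L : ℕ, 2 ≤ K → 1 ≤ L → ∀ ε : ℝ, 0 < ε → ∀ᶠ m : ℕ in atTop,
      (TOT k K m L k α : ℝ) ≤ ((K : ℝ) ^ m) ^ ((k : ℝ) + ε) := by
    rw [ae_all_iff]
    intro K
    rw [ae_all_iff]
    intro L
    by_cases h : 2 ≤ K ∧ 1 ≤ L
    · filter_upwards [hBC' k K L k (by omega) h.1 (by exact_mod_cast h.2) (by positivity)] with α hα _ _
      exact hα
    · exact Eventually.of_forall fun α h1 h2 => absurd ⟨h1, h2⟩ h
  filter_upwards [hae] with α hα hpos ε hε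
  have hk2 : (2 : ℝ) ≤ k := by exact_mod_cast hk
  have hk0 : (0 : ℝ) < k := by linarith
  have hk1 : (1 : ℝ) ≤ k := by linarith
  obtain ⟨D, hD⟩ : ∃ D : ℝ, D = (4 * (k : ℝ)) ^ (2 * k) := ⟨_, rfl⟩
  have hD1 : 1 ≤ D := by
    rw [hD]
    apply one_le_pow₀
    linarith
  have hD0 : 0 < D := by linarith
  obtain ⟨K, hK⟩ : ∃ K, K = ⌈D ^ (8 / ε)⌉₊ + 2 := ⟨_, rfl⟩
  have hK2 : 2 ≤ K := by omega
  have hK2' : (2 : ℝ) ≤ K := by exact_mod_cast hK2
  have hKD : D ≤ (K : ℝ) ^ (ε / 8) := by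
    have h1 : D ^ (8 / ε) ≤ K := by
      have := Nat.le_ceil (D ^ (8 / ε))
      rw [hK]
      push_cast
      linarith
    calc D = (D ^ (8 / ε)) ^ (ε / 8) := by
          rw [← Real.rpow_mul hD0.le]
          have : 8 / ε * (ε / 8) = 1 := by field_simp
          rw [this, Real.rpow_one]
      _ ≤ (K : ℝ) ^ (ε / 8) := Real.rpow_le_rpow (by positivity) h1 (by positivity)
  obtain ⟨L, hL⟩ : ∃ L, L = ⌈∑ i, α i⌉₊ + 1 := ⟨_, rfl⟩
  have hαL : ∀ i, α i ∈ Set.Icc (0 : ℝ) L := by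
    intro i
    refine ⟨(hpos i).le, ?_⟩
    have h1 : α i ≤ ∑ i, α i := Finset.single_le_sum (fun j _ => (hpos j).le) (mem_univ i)
    have h2 := Nat.le_ceil (∑ i, α i)
    rw [hL]
    push_cast
    linarith
  have hbc := hα K L hK2 (by omega) (ε / 8) (by positivity)
  have htend : Tendsto (fun m : ℕ => ((K : ℝ) ^ m) ^ (ε / 8)) atTop atTop :=
    (tendsto_rpow_atTop (by positivity)).comp (tendsto_pow_atTop_atTop_of_one_lt (by linarith))
  have hmain : ∀ᶠ m : ℕ in atTop, (JJ (CB k (range (K ^ m))) (fsR (PT k α)) : ℝ) ≤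
      ((K : ℝ) ^ m) ^ ((k : ℝ) + ε / 2) := by
    filter_upwards [hbc, htend.eventually_ge_atTop ((2 * (K : ℝ)) ^ (2 * k)), htend.eventually_ge_atTop 2] with m h1 h2 h3
    have h4 := hIT k K (by omega) (by omega) (PT k α) m
    have h5 := TOT_ge (k := k) (K := K) (m := m) hαL
    obtain ⟨Z, hZ⟩ : ∃ Z : ℝ, Z = (K : ℝ) ^ m := ⟨_, rfl⟩
    have hZ1 : 1 ≤ Z := by rw [hZ]; exact one_le_pow₀ (by linarith)
    have hZ0 : 0 < Z := by linarith
    rw [← hZ] at h1 h2 h3 ⊢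
    have hDm : D ^ m ≤ Z ^ (ε / 8) := by
      calc D ^ m ≤ ((K : ℝ) ^ (ε / 8)) ^ m := pow_le_pow_left₀ hD0.le hKD m
        _ = Z ^ (ε / 8) := by
            rw [hZ, ← Real.rpow_natCast, ← Real.rpow_natCast, ← Real.rpow_mul (by linarith), ← Real.rpow_mul (by linarith),
              mul_comm]
    have hpos8 : 0 ≤ Z ^ (ε / 8) := by positivity
    have hZk : Z ≤ Z ^ ((k : ℝ) + ε / 8) := by
      calc Z = Z ^ (1 : ℝ) := (Real.rpow_one Z).symm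
        _ ≤ _ := Real.rpow_le_rpow_of_exponent_le hZ1 (by linarith)
    have hZk0 : 0 ≤ Z ^ ((k : ℝ) + ε / 8) := by positivity
    rw [← hD, ← hZ] at h4
    refine h4.trans ?_
    calc D ^ m * (Z + (2 * (K : ℝ)) ^ (2 * k) * ∑ l ∈ range m, ∑ P ∈ range (K ^ l), ∑ c ∈ Sep k K,
          (JJ (BX K P (K ^ (m - l - 1)) c) (fsR (PT k α)) : ℝ)) ≤
        Z ^ (ε / 8) * (Z ^ ((k : ℝ) + ε / 8) + Z ^ (ε / 8) * Z ^ ((k : ℝ) + ε / 8)) := by
          have h6 : 0 ≤ ∑ l ∈ range m, ∑ P ∈ range (K ^ l), ∑ c ∈ Sep k K,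
              (JJ (BX K P (K ^ (m - l - 1)) c) (fsR (PT k α)) : ℝ) := by positivity
          have h7 := h5.trans h1
          have h8 : (2 * (K : ℝ)) ^ (2 * k) * ∑ l ∈ range m, ∑ P ∈ range (K ^ l), ∑ c ∈ Sep k K,
              (JJ (BX K P (K ^ (m - l - 1)) c) (fsR (PT k α)) : ℝ) ≤ Z ^ (ε / 8) * Z ^ ((k : ℝ) + ε / 8) :=
            mul_le_mul h2 h7 h6 hpos8
          have h9 : 0 ≤ (2 * (K : ℝ)) ^ (2 * k) * ∑ l ∈ range m, ∑ P ∈ range (K ^ l), ∑ c ∈ Sep k K,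
              (JJ (BX K P (K ^ (m - l - 1)) c) (fsR (PT k α)) : ℝ) := by positivity
          exact mul_le_mul hDm (add_le_add hZk h8) (by linarith) hpos8
      _ ≤ Z ^ (ε / 8) * (Z ^ (ε / 8) * (Z ^ (ε / 8) * Z ^ ((k : ℝ) + ε / 8))) := by
          apply mul_le_mul_of_nonneg_left _ hpos8
          have h6 : Z ^ ((k : ℝ) + ε / 8) ≤ Z ^ (ε / 8) * Z ^ ((k : ℝ) + ε / 8) := by nlinarith
          have h7 : 0 ≤ Z ^ (ε / 8) * Z ^ ((k : ℝ) + ε / 8) := by positivity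
          nlinarith
      _ = Z ^ ((k : ℝ) + ε / 2) := by
          rw [← Real.rpow_add hZ0, ← Real.rpow_add hZ0, ← Real.rpow_add hZ0]
          congr 1
          ring
  obtain ⟨m0, hm0⟩ := eventually_atTop.1 hmain
  have htM : Tendsto (fun M : ℕ => (M : ℝ) ^ (ε / 2)) atTop atTop :=
    (tendsto_rpow_atTop (by positivity)).comp tendsto_natCast_atTop_atTop
  filter_upwards [htM.eventually_ge_atTop ((2 * (K : ℝ)) ^ ((k : ℝ) + ε / 2)), eventually_ge_atTop (K ^ m0),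
    eventually_ge_atTop 1] with M hM1 hM2 hM3
  obtain ⟨m, hm⟩ : ∃ m, m = Nat.clog K (M + 1) := ⟨_, rfl⟩
  have hK1 : 1 < K := by omega
  have hle : M + 1 ≤ K ^ m := by rw [hm]; exact Nat.le_pow_clog hK1 _
  have hlt : K ^ m.pred < M + 1 := by rw [hm]; exact Nat.pow_pred_clog_lt_self hK1 (by omega)
  have hmm : m0 ≤ m := by
    by_contra hcon
    push Not at hcon
    have : K ^ m ≤ K ^ m0 := Nat.pow_le_pow_right (by omega) hcon.le
    omega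
  have hm1 : 1 ≤ m := by
    by_contra hcon
    have : m = 0 := by omega
    rw [this, pow_zero] at hle
    omega
  have hKm : (K : ℝ) ^ m ≤ 2 * K * M := by
    have h1 : K ^ m = K * K ^ m.pred := by
      rw [← pow_succ']
      congr 1
      exact (Nat.succ_pred_eq_of_pos hm1).symm
    have h2 : K ^ m ≤ K * (2 * M) := by
      rw [h1]
      apply Nat.mul_le_mul_left
      omega
    have h3 : ((K ^ m : ℕ) : ℝ) ≤ ((K * (2 * M) : ℕ) : ℝ) := by exact_mod_cast h2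
    push_cast at h3
    linarith
  have hsub : CB k (range (M + 1)) ⊆ CB k (range (K ^ m)) := by
    unfold CB
    apply Fintype.piFinset_subset
    intro _
    exact range_subset_range.2 hle
  have h1 : (JJ (CB k (range (M + 1))) (fsR (PT k α)) : ℝ) ≤
      (JJ (CB k (range (K ^ m))) (fsR (PT k α)) : ℝ) := by
    exact_mod_cast JJ_mono hsub _
  have hM0 : (0 : ℝ) < M := by exact_mod_cast hM3
  calc _ ≤ _ := h1
    _ ≤ ((K : ℝ) ^ m) ^ ((k : ℝ) + ε / 2) := by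
        exact hm0 m hmm
    _ ≤ (2 * K * M) ^ ((k : ℝ) + ε / 2) := Real.rpow_le_rpow (by positivity) hKm (by positivity)
    _ = (2 * (K : ℝ)) ^ ((k : ℝ) + ε / 2) * (M : ℝ) ^ ((k : ℝ) + ε / 2) := Real.mul_rpow (by positivity) hM0.le
    _ ≤ (M : ℝ) ^ (ε / 2) * (M : ℝ) ^ ((k : ℝ) + ε / 2) := by
        apply mul_le_mul_of_nonneg_right hM1
        positivity
    _ = (M : ℝ) ^ ((k : ℝ) + ε) := by
        rw [← Real.rpow_add hM0]
        congr 1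
        ring

end Pool.Agent.J4H31.AF.Mv
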